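import Mathlib

set_option autoImplicit false

namespace Pool.Agent.Lib.MP_571698_co

open Finset Filter Topology

/-- Bessel inequality for tensor powers of a weighted orthogonal representation. -/
theorem tensor_bessel {α E : Type} [DecidableEq α] [DecidableEq E] (n : ℕ) (T : Finset E)
    (w c : E → ℝ) (u : α → E → ℝ) (hw : ∀ e, 0 ≤ w e) (a β γ : ℝ) (I : Finset (Fin n → α))
    (h1 : ∀ x ∈ I, ∀ k, ∑ e ∈ T, w e * (u (x k) e * u (x k) e) = a)
    (h2 : ∀ x ∈ I, ∀ k, ∑ e ∈ T, w e * (c e * u (x k) e) = β)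
    (h3 : ∑ e ∈ T, w e * (c e * c e) = γ)
    (h4 : ∀ x ∈ I, ∀ y ∈ I, x ≠ y → ∃ k, ∑ e ∈ T, w e * (u (x k) e * u (y k) e) = 0) :
    ((I.card : ℝ) * β ^ n) ^ 2 ≤ γ ^ n * ((I.card : ℝ) * a ^ n) := by
  classical
  let P : Finset (Fin n → E) := Fintype.piFinset (fun _ : Fin n => T)
  let W : (Fin n → E) → ℝ := fun ε => ∏ k, w (ε k)
  let C : (Fin n → E) → ℝ := fun ε => ∏ k, c (ε k)
  let U : (Fin n → α) → (Fin n → E) → ℝ := fun x ε => ∏ k, u (x k) (ε k)
  have hW : ∀ ε, 0 ≤ W ε := fun ε => Finset.prod_nonneg fun k _ => hw _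
  have key : ∀ (p q : Fin n → E → ℝ),
      ∑ ε ∈ P, W ε * ((∏ k, p k (ε k)) * ∏ k, q k (ε k)) =
        ∏ k, ∑ e ∈ T, w e * (p k e * q k e) := by
    intro p q
    rw [Finset.prod_univ_sum]
    refine Finset.sum_congr rfl fun ε _ => ?_
    simp only [W, Finset.prod_mul_distrib]
  have hCS := Finset.sum_sq_le_sum_mul_sum_of_sq_le_mul P
    (r := fun ε => W ε * (C ε * ∑ x ∈ I, U x ε))
    (f := fun ε => W ε * (C ε * C ε))
    (g := fun ε => W ε * ((∑ x ∈ I, U x ε) * ∑ x ∈ I, U x ε))
    (fun ε _ => mul_nonneg (hW ε) (mul_self_nonneg _))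
    (fun ε _ => mul_nonneg (hW ε) (mul_self_nonneg _))
    (fun ε _ => le_of_eq (by ring))
  have e1 : ∑ ε ∈ P, W ε * (C ε * ∑ x ∈ I, U x ε) = (I.card : ℝ) * β ^ n := by
    simp only [Finset.mul_sum]
    rw [Finset.sum_comm]
    rw [Finset.sum_congr rfl (g := fun _ => β ^ n)]
    · simp
    · intro x hx
      rw [key (fun _ => c) (fun k => u (x k))]
      rw [Finset.prod_congr rfl (g := fun _ => β) (fun k _ => h2 x hx k)]
      simp
  have e2 : ∑ ε ∈ P, W ε * (C ε * C ε) = γ ^ n := by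
    rw [key (fun _ => c) (fun _ => c), h3]
    simp
  have e3 : ∑ ε ∈ P, W ε * ((∑ x ∈ I, U x ε) * ∑ x ∈ I, U x ε) = (I.card : ℝ) * a ^ n := by
    simp only [Finset.sum_mul_sum]
    simp only [Finset.mul_sum]
    rw [Finset.sum_comm]
    rw [Finset.sum_congr rfl (g := fun _ => a ^ n)]
    · simp
    · intro x hx
      rw [Finset.sum_comm, Finset.sum_eq_single x]
      · rw [key (fun k => u (x k)) (fun k => u (x k))]
        rw [Finset.prod_congr rfl (g := fun _ => a) (fun k _ => h1 x hx k)]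
        simp
      · intro y hy hyx
        rw [key (fun k => u (x k)) (fun k => u (y k))]
        obtain ⟨k, hk⟩ := h4 x hx y hy hyx.symm
        exact Finset.prod_eq_zero (Finset.mem_univ k) hk
      · intro h; exact absurd hx h
  rw [e1, e2, e3] at hCS
  exact hCS

theorem sum_exp_le (D : ℝ) (hD : 1 ≤ D) (M : ℕ) :
    ∑ t ∈ Finset.Icc (-(M : ℤ)) M, Real.exp (-|(t : ℝ)| / D) ≤ 3 * D := by
  have hD0 : 0 < D := by linarith
  have key : ∑ t ∈ Finset.Icc (-(M : ℤ)) M, Real.exp (-|(t : ℝ)| / D) ≤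
      1 + 2 * D * (1 - Real.exp (-(M : ℝ) / D)) := by
    induction M with
    | zero => simp
    | succ M ih =>
      have hI : Finset.Icc (-((M + 1 : ℕ) : ℤ)) ((M + 1 : ℕ) : ℤ) =
          insert (-((M : ℤ) + 1)) (insert ((M : ℤ) + 1) (Finset.Icc (-(M : ℤ)) M)) := by
        ext t
        simp only [Finset.mem_Icc, Finset.mem_insert]
        omega
      rw [hI, Finset.sum_insert, Finset.sum_insert]
      · have h1 : |(((-((M : ℤ) + 1)) : ℤ) : ℝ)| = (M : ℝ) + 1 := by
          push_cast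
          rw [abs_neg, abs_of_nonneg (by positivity)]
        have h2 : |((((M : ℤ) + 1) : ℤ) : ℝ)| = (M : ℝ) + 1 := by
          push_cast
          rw [abs_of_nonneg (by positivity)]
        rw [h1, h2]
        push_cast
        have h3 : Real.exp (-(M : ℝ) / D) = Real.exp (-((M : ℝ) + 1) / D) * Real.exp (1 / D) := by
          rw [← Real.exp_add]; congr 1; ring
        have h4 : 1 / D + 1 ≤ Real.exp (1 / D) := Real.add_one_le_exp _
        have h5 : 0 < Real.exp (-((M : ℝ) + 1) / D) := Real.exp_pos _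
        have h6 : Real.exp (-((M : ℝ) + 1) / D) ≤
            D * (Real.exp (-(M : ℝ) / D) - Real.exp (-((M : ℝ) + 1) / D)) := by
          rw [h3]
          have h7 : Real.exp (-((M : ℝ) + 1) / D) * (1 / D + 1) ≤
              Real.exp (-((M : ℝ) + 1) / D) * Real.exp (1 / D) :=
            mul_le_mul_of_nonneg_left h4 h5.le
          have h8 : D * (Real.exp (-((M : ℝ) + 1) / D) * (1 / D + 1) -
              Real.exp (-((M : ℝ) + 1) / D)) = Real.exp (-((M : ℝ) + 1) / D) := by
            field_simp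
            ring
          nlinarith
        linarith
      · simp only [Finset.mem_Icc]; omega
      · simp only [Finset.mem_Icc, Finset.mem_insert]; omega
  have : 0 < Real.exp (-(M : ℝ) / D) := Real.exp_pos _
  nlinarith

theorem second_moment {α : Type} [DecidableEq α] (n : ℕ) (B : Finset α) (φ : Fin n → α → ℝ)
    (C : ℝ) (hz : ∀ k, ∑ x ∈ B, φ k x = 0) (hC : ∀ k, ∀ x ∈ B, φ k x * φ k x ≤ C) :
    ∑ x ∈ Fintype.piFinset (fun _ : Fin n => B), (∑ k, φ k (x k)) ^ 2 ≤
      (n : ℝ) * C * (Fintype.piFinset (fun _ : Fin n => B)).card := by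
  classical
  simp only [sq, Finset.sum_mul_sum]
  rw [Finset.sum_comm]
  have : ∀ j : Fin n, ∑ x ∈ Fintype.piFinset (fun _ : Fin n => B), ∑ k, φ j (x j) * φ k (x k) ≤
      C * (Fintype.piFinset (fun _ : Fin n => B)).card := by
    intro j
    rw [Finset.sum_comm, Finset.sum_eq_single j]
    · calc _ ≤ ∑ _x ∈ Fintype.piFinset (fun _ : Fin n => B), C :=
            Finset.sum_le_sum fun x hx => hC j _ (Fintype.mem_piFinset.mp hx j)
        _ = _ := by simp [mul_comm]
    · intro k _ hkj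
      let ψ : Fin n → α → ℝ := fun i y => if i = j then φ j y else if i = k then φ k y else 1
      have h1 : ∀ x : Fin n → α, φ j (x j) * φ k (x k) = ∏ i, ψ i (x i) := by
        intro x
        rw [← Finset.mul_prod_erase _ _ (Finset.mem_univ j),
          ← Finset.mul_prod_erase _ _ (Finset.mem_erase.mpr ⟨hkj, Finset.mem_univ k⟩)]
        rw [Finset.prod_eq_one]
        · simp [ψ, hkj]
        · intro i hi
          simp only [Finset.mem_erase] at hi
          simp [ψ, hi.1, hi.2.1]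
      simp only [h1]
      rw [← Finset.prod_univ_sum]
      refine Finset.prod_eq_zero (Finset.mem_univ j) ?_
      simpa [ψ] using hz j
    · intro h; exact absurd (Finset.mem_univ j) h
  calc _ ≤ ∑ _j : Fin n, C * ((Fintype.piFinset (fun _ : Fin n => B)).card : ℝ) :=
        Finset.sum_le_sum fun j _ => this j
    _ = _ := by simp [mul_assoc]

/-- If all fibres of the query map on a product set are small then there are many queries. -/
theorem count_bound {α V : Type} [DecidableEq α] [DecidableEq V] (n : ℕ) (hn : 1 ≤ n)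
    (B : Finset α) (hB : B.Nonempty) (lam : V → α → ℤ) (C : ℕ)
    (hz : ∀ s, ∑ x ∈ B, lam s x = 0) (hC : ∀ s, ∀ x ∈ B, |lam s x| ≤ C)
    (S : Finset (Fin n → V)) (A : ℝ)
    (hfib : ∀ I ⊆ Fintype.piFinset (fun _ : Fin n => B),
      (∀ x ∈ I, ∀ y ∈ I, ∀ s ∈ S, ∑ k, lam (s k) (x k) = ∑ k, lam (s k) (y k)) →
        (I.card : ℝ) ≤ A) :
    (B.card : ℝ) ^ n ≤ A * (3 * Real.exp ((1 + (C : ℝ) ^ 2) / 2) * √n) ^ S.card := by
  classical
  set X := Fintype.piFinset (fun _ : Fin n => B) with hX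
  have hXc : (X.card : ℝ) = (B.card : ℝ) ^ n := by
    rw [hX, Fintype.card_piFinset]; simp
  have hXpos : 0 < (X.card : ℝ) := by
    rw [hXc]; exact pow_pos (by exact_mod_cast hB.card_pos) n
  have hn' : (1 : ℝ) ≤ n := by exact_mod_cast hn
  have hD : (1 : ℝ) ≤ √n := Real.one_le_sqrt.mpr hn'
  have hD0 : (0 : ℝ) < √n := by linarith
  have hDD : √n * √n = (n : ℝ) := Real.mul_self_sqrt (by linarith)
  have hA : 0 ≤ A := by simpa using hfib ∅ (Finset.empty_subset _) (by simp)
  let Φ : (Fin n → α) → (S → ℤ) := fun x s => ∑ k, lam (s.1 k) (x k)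
  let M : ℕ := n * C
  let Y : Finset (S → ℤ) := Fintype.piFinset (fun _ : S => Finset.Icc (-(M : ℤ)) M)
  let wt : (S → ℤ) → ℝ := fun y => ∏ s, Real.exp (-|(y s : ℝ)| / √n)
  have hmaps : ∀ x ∈ X, Φ x ∈ Y := by
    intro x hx
    refine Fintype.mem_piFinset.mpr fun s => ?_
    rw [Finset.mem_Icc, ← abs_le]
    calc |Φ x s| ≤ ∑ k, |lam (s.1 k) (x k)| := Finset.abs_sum_le_sum_abs _ _
      _ ≤ ∑ _k : Fin n, (C : ℤ) :=
          Finset.sum_le_sum fun k _ => hC _ _ (Fintype.mem_piFinset.mp hx k)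
      _ = M := by simp [M]
  have hup : ∑ x ∈ X, wt (Φ x) ≤ A * (3 * √n) ^ S.card := by
    rw [← Finset.sum_fiberwise_of_maps_to hmaps]
    calc _ ≤ ∑ y ∈ Y, A * wt y := by
          refine Finset.sum_le_sum fun y _ => ?_
          rw [Finset.sum_congr rfl (g := fun _ => wt y)
            (fun x hx => by rw [(Finset.mem_filter.mp hx).2])]
          rw [Finset.sum_const, nsmul_eq_mul]
          refine mul_le_mul_of_nonneg_right ?_
            (Finset.prod_nonneg fun s _ => (Real.exp_pos _).le)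
          refine hfib _ (Finset.filter_subset _ _) fun x hx x' hx' s hs => ?_
          have h1 := (Finset.mem_filter.mp hx).2
          have h2 := (Finset.mem_filter.mp hx').2
          exact congrFun (h1.trans h2.symm) ⟨s, hs⟩
      _ = A * ∏ _s : S, ∑ t ∈ Finset.Icc (-(M : ℤ)) M, Real.exp (-|(t : ℝ)| / √n) := by
          rw [← Finset.mul_sum, Finset.prod_univ_sum]
      _ ≤ A * (3 * √n) ^ S.card := by
          refine mul_le_mul_of_nonneg_left ?_ hA
          rw [Finset.prod_const, Finset.card_univ, Fintype.card_coe]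
          exact pow_le_pow_left₀ (Finset.sum_nonneg fun t _ => (Real.exp_pos _).le)
            (sum_exp_le _ hD M) _
  let a : ℝ := S.card * ((1 + (C : ℝ) ^ 2) / 2)
  let Z : (Fin n → α) → ℝ := fun x => ∑ s : S, (1 + (Φ x s : ℝ) ^ 2 / n) / 2
  have hZ : ∑ x ∈ X, Z x ≤ a * X.card := by
    simp only [Z]
    rw [Finset.sum_comm]
    have : ∀ s : S, ∑ x ∈ X, (1 + (Φ x s : ℝ) ^ 2 / n) / 2 ≤
        (1 + (C : ℝ) ^ 2) / 2 * X.card := by
      intro s
      have h1 := second_moment n B (fun k x => (lam (s.1 k) x : ℝ)) ((C : ℝ) ^ 2)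
        (fun k => by exact_mod_cast hz (s.1 k))
        (fun k x hx => by
          have h := hC (s.1 k) x hx
          have h' : |(lam (s.1 k) x : ℝ)| ≤ (C : ℝ) := by exact_mod_cast h
          rw [← sq]
          exact sq_le_sq' (abs_le.mp h').1 (abs_le.mp h').2)
      rw [← hX] at h1
      have h2 : ∑ x ∈ X, (1 + (Φ x s : ℝ) ^ 2 / n) / 2 =
          (X.card + (∑ x ∈ X, (∑ k, (lam (s.1 k) (x k) : ℝ)) ^ 2) / n) / 2 := by
        rw [← Finset.sum_div, Finset.sum_add_distrib, ← Finset.sum_div]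
        simp [Φ]
      rw [h2]
      have h3 : (∑ x ∈ X, (∑ k, (lam (s.1 k) (x k) : ℝ)) ^ 2) / n ≤ (C : ℝ) ^ 2 * X.card := by
        rw [div_le_iff₀ (by linarith)]
        linarith
      linarith
    calc _ ≤ ∑ _s : S, (1 + (C : ℝ) ^ 2) / 2 * X.card := Finset.sum_le_sum fun s _ => this s
      _ = _ := by simp [a, mul_assoc]
  have hlow : ∀ x, Real.exp (-a) * (1 + a - Z x) ≤ wt (Φ x) := by
    intro x
    have h1 : Real.exp (-Z x) ≤ wt (Φ x) := by
      simp only [wt, Z]
      rw [← Real.exp_sum, Real.exp_le_exp, ← Finset.sum_neg_distrib]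
      refine Finset.sum_le_sum fun s _ => ?_
      have h2 : (Φ x s : ℝ) ^ 2 / n = (|(Φ x s : ℝ)| / √n) ^ 2 := by
        rw [div_pow, sq_abs, sq √n, hDD]
      rw [h2, neg_div]
      nlinarith [sq_nonneg (|(Φ x s : ℝ)| / √n - 1)]
    have h3 : Real.exp (-Z x) = Real.exp (-a) * Real.exp (a - Z x) := by
      rw [← Real.exp_add]; congr 1; ring
    have h4 := Real.add_one_le_exp (a - Z x)
    have h5 := Real.exp_pos (-a)
    rw [h3] at h1
    nlinarith
  have hsum : Real.exp (-a) * X.card ≤ ∑ x ∈ X, wt (Φ x) := by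
    calc _ ≤ Real.exp (-a) * ∑ x ∈ X, (1 + a - Z x) := by
          refine mul_le_mul_of_nonneg_left ?_ (Real.exp_pos _).le
          rw [Finset.sum_sub_distrib, Finset.sum_const, nsmul_eq_mul]
          linarith
      _ = ∑ x ∈ X, Real.exp (-a) * (1 + a - Z x) := Finset.mul_sum _ _ _
      _ ≤ _ := Finset.sum_le_sum fun x _ => hlow x
  have hfin : (X.card : ℝ) ≤ Real.exp a * (A * (3 * √n) ^ S.card) := by
    have h1 := mul_le_mul_of_nonneg_left (hsum.trans hup) (Real.exp_pos a).le
    rwa [← mul_assoc, ← Real.exp_add, add_neg_cancel, Real.exp_zero, one_mul] at h1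
  rw [← hXc]
  refine hfin.trans (le_of_eq ?_)
  simp only [a]
  rw [Real.exp_nat_mul, mul_pow, mul_pow, mul_pow]
  ring

theorem not_tendsto (q W K : ℝ) (hq : 1 < q) (hW : q < W) (hK : 0 < K) (m : ℕ → ℕ)
    (h : ∀ n : ℕ, 1 ≤ n → W ^ n ≤ (K * √n) ^ m n) :
    ¬ Tendsto (fun n : ℕ => (m n : ℝ) * Real.logb q n / n) atTop (𝓝 2) := by
  intro ht
  have hlq : 0 < Real.log q := Real.log_pos hq
  have hlog : Tendsto (fun n : ℕ => Real.log n) atTop atTop :=
    Real.tendsto_log_atTop.comp tendsto_natCast_atTop_atTop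
  have h1 : Tendsto (fun n : ℕ => Real.log K / Real.log n) atTop (𝓝 0) :=
    tendsto_const_nhds.div_atTop hlog
  have h2 : Tendsto (fun n : ℕ => (m n : ℝ) * Real.logb q n / n *
      (Real.log q * (Real.log K / Real.log n + 1 / 2))) atTop
      (𝓝 (2 * (Real.log q * (0 + 1 / 2)))) :=
    ht.mul (tendsto_const_nhds.mul (h1.add tendsto_const_nhds))
  have h3 : Real.log W ≤ 2 * (Real.log q * (0 + 1 / 2)) := by
    refine ge_of_tendsto h2 ?_
    filter_upwards [eventually_ge_atTop 2] with n hn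
    have hn' : (2 : ℝ) ≤ n := by exact_mod_cast hn
    have hln : 0 < Real.log n := Real.log_pos (by linarith)
    have hs : 0 < √(n : ℝ) := Real.sqrt_pos.mpr (by linarith)
    have h4 := Real.log_le_log (pow_pos (by linarith) n) (h n (by omega))
    rw [Real.log_pow, Real.log_pow, Real.log_mul hK.ne' hs.ne',
      Real.log_sqrt (by linarith)] at h4
    have h5 : (m n : ℝ) * Real.logb q n / n * (Real.log q * (Real.log K / Real.log n + 1 / 2)) =
        (m n : ℝ) * (Real.log K + Real.log n / 2) / n := by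
      rw [Real.logb]
      field_simp
    rw [h5, le_div_iff₀ (by linarith)]
    linarith
  have h4 : Real.log q < Real.log W := Real.log_lt_log (by linarith) hW
  linarith

/-- A potential function that drops by one along some edge and by at most one along every edge
is the distance to the base point. -/
theorem dist_eq_of_potential {W : Type} (H : SimpleGraph W) (s : W) (δ : W → ℕ) (h0 : δ s = 0)
    (h1 : ∀ a b, H.Adj a b → δ a ≤ δ b + 1)
    (h2 : ∀ a, a ≠ s → ∃ b, H.Adj a b ∧ δ b + 1 = δ a) (a : W) :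
    H.Reachable a s ∧ H.dist a s = δ a := by
  have hex : ∀ d : ℕ, ∀ a, δ a = d → ∃ p : H.Walk a s, p.length = d := by
    intro d
    induction d with
    | zero =>
      intro a ha
      by_cases has : a = s
      · subst has; exact ⟨SimpleGraph.Walk.nil, rfl⟩
      · obtain ⟨b, -, hb⟩ := h2 a has
        omega
    | succ d ih =>
      intro a ha
      by_cases has : a = s
      · subst has; omega
      · obtain ⟨b, hab, hb⟩ := h2 a has
        obtain ⟨p, hp⟩ := ih b (by omega)
        exact ⟨SimpleGraph.Walk.cons hab p, by simp [hp]⟩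
  have hlow : ∀ (a t : W) (p : H.Walk a t), δ a ≤ δ t + p.length := by
    intro a t p
    induction p with
    | nil => simp
    | cons hab p ih =>
      have := h1 _ _ hab
      simp only [SimpleGraph.Walk.length_cons]
      omega
  obtain ⟨p, hp⟩ := hex (δ a) a rfl
  refine ⟨⟨p⟩, le_antisymm (hp ▸ SimpleGraph.dist_le p) ?_⟩
  obtain ⟨p', hp'⟩ := (show H.Reachable a s from ⟨p⟩).exists_walk_length_eq_dist
  have := hlow a s p'
  omega

/-- Distance in the Cartesian power. -/
theorem dist_power {V : Type} [DecidableEq V] (G : SimpleGraph V) (d : V → V → ℕ)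
    (h0 : ∀ s, d s s = 0) (h1 : ∀ s a b, G.Adj a b → d a s ≤ d b s + 1)
    (h2 : ∀ s a, a ≠ s → ∃ b, G.Adj a b ∧ d b s + 1 = d a s) (n : ℕ) (x s : Fin n → V) :
    (SimpleGraph.fromRel (fun a b : Fin n → V =>
      ∃ i : Fin n, G.Adj (a i) (b i) ∧ ∀ j : Fin n, j ≠ i → a j = b j)).dist x s =
      ∑ k, d (x k) (s k) := by
  refine (dist_eq_of_potential _ s (fun x => ∑ k, d (x k) (s k)) (by simp [h0]) ?_ ?_ x).2
  · intro a b hab
    rw [SimpleGraph.fromRel_adj] at hab
    obtain ⟨i, hi, hj⟩ : ∃ i : Fin n, G.Adj (a i) (b i) ∧ ∀ j : Fin n, j ≠ i → a j = b j := by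
      rcases hab.2 with h | ⟨i, hi, hj⟩
      · exact h
      · exact ⟨i, hi.symm, fun j hji => (hj j hji).symm⟩
    show ∑ k, d (a k) (s k) ≤ ∑ k, d (b k) (s k) + 1
    rw [← Finset.add_sum_erase _ _ (Finset.mem_univ i),
      ← Finset.add_sum_erase _ (fun k => d (b k) (s k)) (Finset.mem_univ i)]
    have e : ∑ k ∈ Finset.univ.erase i, d (a k) (s k) =
        ∑ k ∈ Finset.univ.erase i, d (b k) (s k) :=
      Finset.sum_congr rfl fun k hk => by rw [hj k (Finset.mem_erase.mp hk).1]
    have := h1 (s i) _ _ hi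
    omega
  · intro a ha
    obtain ⟨i, hi⟩ := Function.ne_iff.mp ha
    obtain ⟨b, hb, hd⟩ := h2 (s i) (a i) hi
    refine ⟨Function.update a i b, ?_, ?_⟩
    · rw [SimpleGraph.fromRel_adj]
      refine ⟨fun h => ?_, Or.inl ⟨i, by simpa using hb, fun j hj => by simp [hj]⟩⟩
      have := congrFun h i
      rw [Function.update_self] at this
      exact hb.ne this
    · show ∑ k, d (Function.update a i b k) (s k) + 1 = ∑ k, d (a k) (s k)
      rw [← Finset.add_sum_erase _ _ (Finset.mem_univ i),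
        ← Finset.add_sum_erase _ (fun k => d (a k) (s k)) (Finset.mem_univ i)]
      have e : ∑ k ∈ Finset.univ.erase i, d (Function.update a i b k) (s k) =
          ∑ k ∈ Finset.univ.erase i, d (a k) (s k) :=
        Finset.sum_congr rfl fun k hk => by
          rw [Function.update_of_ne (Finset.mem_erase.mp hk).1]
      rw [e, Function.update_self]
      omega

end Pool.Agent.Lib.MP_571698_co
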