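import Mathlib
import Pool.Agent.Lib.MP_571698_co.Abstract
import Pool.Agent.Lib.MP_571698_co.Cert

set_option autoImplicit false

namespace Pool.Agent.Lib.MP_571698_co

open Finset Filter Topology

/-- Lattice points. -/
abbrev Pt : Type := Fin 5 → ℤ

/-- The `a`-th point of the box of size 3, 2, 2, 2, 2. -/
def pt (a : ℕ) : Pt :=
  ![(a % 3 : ℕ), (a / 3 % 2 : ℕ), (a / 6 % 2 : ℕ), (a / 12 % 2 : ℕ), (a / 24 % 2 : ℕ)]

/-- The `x`-th vertex as a point of the 5-cube. -/
def vx (x : ℕ) : Pt :=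
  ![(code x % 2 : ℕ), (code x / 2 % 2 : ℕ), (code x / 4 % 2 : ℕ), (code x / 8 % 2 : ℕ),
    (code x / 16 % 2 : ℕ)]

/-- Mixed radix functional. -/
def ell (δ : Pt) : ℤ := δ 0 + 5 * δ 1 + 15 * δ 2 + 45 * δ 3 + 135 * δ 4

theorem ell_sub (x y : Pt) : ell (x - y) = ell x - ell y := by
  simp only [ell, Pi.sub_apply]; ring

/-- Small difference vectors. -/
def Small (δ : Pt) : Prop := |δ 0| ≤ 2 ∧ |δ 1| ≤ 1 ∧ |δ 2| ≤ 1 ∧ |δ 3| ≤ 1 ∧ |δ 4| ≤ 1

theorem ell_inj {δ ε : Pt} (h1 : Small δ) (h2 : Small ε) (h : ell δ = ell ε) : δ = ε := by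
  simp only [Small, abs_le] at h1 h2
  simp only [ell] at h
  have e0 : δ 0 = ε 0 := by omega
  have e1 : δ 1 = ε 1 := by omega
  have e2 : δ 2 = ε 2 := by omega
  have e3 : δ 3 = ε 3 := by omega
  have e4 : δ 4 = ε 4 := by omega
  funext i
  fin_cases i
  exacts [e0, e1, e2, e3, e4]

theorem small_pt (a b : ℕ) : Small (pt a - pt b) := by
  simp only [Small, abs_le, Pi.sub_apply, pt, Matrix.cons_val]
  omega

theorem small_vx (a b : ℕ) : Small (vx a - vx b) := by
  simp only [Small, abs_le, Pi.sub_apply, vx, Matrix.cons_val]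
  omega

theorem ell_pt {a : ℕ} (ha : a < 48) : ell (pt a) = lu a := by
  rw [lu_eq a ha]
  simp only [ell, pt, Matrix.cons_val]
  push_cast
  ring

theorem ell_vx (x : ℕ) : ell (vx x) = lv x := by
  simp only [ell, vx, lv, Matrix.cons_val]
  push_cast
  ring

theorem lu_le {a : ℕ} (ha : a < 48) : lu a ≤ 202 := by
  rw [lu_eq a ha]; omega

/-- The positive definite function on the lattice. -/
def FD (δ : Pt) : ℤ := ∑ a ∈ range 48, ∑ b ∈ range 48, if δ = pt a - pt b then QQ a b else 0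

theorem FD_eq {δ : Pt} (hδ : Small δ) (κ : ℕ) (hκ : ell δ + 202 = κ) : FD δ = FF κ := by
  rw [FF_eq, FD]
  refine Finset.sum_congr rfl fun a ha => Finset.sum_congr rfl fun b hb => ?_
  have ha' := Finset.mem_range.mp ha
  have hb' := Finset.mem_range.mp hb
  have h1 : ell (pt a - pt b) = (lu a : ℤ) - lu b := by rw [ell_sub, ell_pt ha', ell_pt hb']
  refine if_congr ⟨fun h => ?_, fun h => ell_inj hδ (small_pt a b) ?_⟩ rfl rfl
  · rw [h, h1] at hκ; omega
  · rw [h1]; omega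

theorem FD_zero : FD 0 = 100233970 := by
  rw [FD_eq (by simp [Small]) 202 (by simp [ell]), cert_trace]

theorem FD_support {δ : Pt} (h : FD δ ≠ 0) : ∃ x < 29, ∃ y < 29, δ = vx x - vx y := by
  obtain ⟨a, ha, h1⟩ := Finset.exists_ne_zero_of_sum_ne_zero h
  obtain ⟨b, hb, h2⟩ := Finset.exists_ne_zero_of_sum_ne_zero h1
  have h3 : δ = pt a - pt b := by
    by_contra h3
    exact h2 (if_neg h3)
  have ha' := Finset.mem_range.mp ha
  have hb' := Finset.mem_range.mp hb
  have hs : Small δ := h3 ▸ small_pt a b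
  have h4 : ell δ = (lu a : ℤ) - lu b := by rw [h3, ell_sub, ell_pt ha', ell_pt hb']
  have h5 := lu_le ha'
  have h6 := lu_le hb'
  have h7 : ell δ + 202 = ((lu a + 202 - lu b : ℕ) : ℤ) := by omega
  rcases cert_zero (lu a + 202 - lu b) (by omega) with ⟨x, hx, y, hy, hxy⟩ | h0
  · refine ⟨x, hx, y, hy, ell_inj hs (small_vx x y) ?_⟩
    rw [ell_sub, ell_vx, ell_vx]
    omega
  · exact absurd ((FD_eq hs _ h7).trans h0) h

/-- Weights of the representation. -/
def ww (e : Pt × ℕ) : ℝ := wv e.2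

/-- Handle of the representation. -/
def cc (e : Pt × ℕ) : ℝ := ∑ a ∈ range 48, (gv e.2 a : ℝ)

/-- Vectors of the representation. -/
def uu (z : Pt) (e : Pt × ℕ) : ℝ :=
  ∑ a ∈ range 48, if z = e.1 + pt a then (gv e.2 a : ℝ) else 0

theorem total_real :
    ∑ j ∈ range 90, (wv j : ℝ) * ((∑ a ∈ range 48, (gv j a : ℝ)) * ∑ a ∈ range 48, (gv j a : ℝ)) =
      2922870384 := by
  have h := cert_total
  rw [sumN_eq] at h
  simp only [sumN_eq] at h
  exact_mod_cast h

theorem gram_cc (T : Finset Pt) :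
    ∑ e ∈ T ×ˢ range 90, ww e * (cc e * cc e) = T.card * 2922870384 := by
  rw [Finset.sum_product]
  simp only [ww, cc]
  rw [total_real]
  simp

theorem sum_ite_shift (T : Finset Pt) (z p : Pt) (h : z - p ∈ T) (f : Pt → ℝ) :
    ∑ t ∈ T, (if z = t + p then f t else 0) = f (z - p) := by
  rw [Finset.sum_eq_single (z - p)]
  · simp
  · intro t _ ht
    rw [if_neg]
    intro h'
    exact ht (by rw [h']; simp)
  · intro h'; exact absurd h h'

theorem gram_cu (T : Finset Pt) (z : Pt) (hz : ∀ a < 48, z - pt a ∈ T) :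
    ∑ e ∈ T ×ˢ range 90, ww e * (cc e * uu z e) = 2922870384 := by
  rw [Finset.sum_product, Finset.sum_comm, ← total_real]
  refine Finset.sum_congr rfl fun j _ => ?_
  simp only [ww, cc, uu]
  rw [← Finset.mul_sum, ← Finset.mul_sum, Finset.sum_comm]
  congr 2
  refine Finset.sum_congr rfl fun a ha => ?_
  exact sum_ite_shift T z (pt a) (hz a (Finset.mem_range.mp ha)) (fun _ => (gv j a : ℝ))

theorem gram_uu (T : Finset Pt) (z z' : Pt) (hz : ∀ a < 48, z - pt a ∈ T) :
    ∑ e ∈ T ×ˢ range 90, ww e * (uu z e * uu z' e) = FD (z - z') := by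
  rw [Finset.sum_product, FD]
  push_cast
  simp only [ww, uu, Finset.sum_mul_sum]
  simp only [Finset.mul_sum]
  have e1 : ∀ t : Pt, ∑ j ∈ range 90, ∑ a ∈ range 48, ∑ b ∈ range 48,
      (wv j : ℝ) * ((if z = t + pt a then (gv j a : ℝ) else 0) *
        if z' = t + pt b then (gv j b : ℝ) else 0) =
      ∑ a ∈ range 48, ∑ b ∈ range 48,
        if z = t + pt a then (if z' = t + pt b then (QQ a b : ℝ) else 0) else 0 := by
    intro t
    rw [Finset.sum_comm]
    refine Finset.sum_congr rfl fun a _ => ?_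
    rw [Finset.sum_comm]
    refine Finset.sum_congr rfl fun b _ => ?_
    split_ifs
    · rw [QQ, sumN_eq]; push_cast; rfl
    · simp
    · simp
    · simp
  simp only [e1]
  rw [Finset.sum_comm]
  refine Finset.sum_congr rfl fun a ha => ?_
  rw [Finset.sum_comm]
  refine Finset.sum_congr rfl fun b _ => ?_
  rw [sum_ite_shift T z (pt a) (hz a (Finset.mem_range.mp ha))
    (fun t => if z' = t + pt b then (QQ a b : ℝ) else 0)]
  refine if_congr ⟨fun h => ?_, fun h => ?_⟩ rfl rfl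
  · rw [h]; abel
  · have : z' = z - (z - z') := by abel
    rw [this, h]; abel

/-- A box of lattice points. -/
noncomputable def box (L : ℕ) : Finset Pt := Fintype.piFinset fun _ : Fin 5 => Finset.Icc (-(L : ℤ)) L

theorem mem_box {L : ℕ} {z : Pt} : z ∈ box L ↔ ∀ i, |z i| ≤ L := by
  simp [box, Fintype.mem_piFinset, abs_le]

theorem card_box (L : ℕ) : (box L).card = (2 * L + 1) ^ 5 := by
  rw [box, Fintype.card_piFinset]
  simp only [Int.card_Icc, Finset.prod_const, Finset.card_univ, Fintype.card_fin]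
  congr 1
  omega

theorem sub_pt_mem {L : ℕ} {z : Pt} (hz : z ∈ box L) (a : ℕ) : z - pt a ∈ box (L + 2) := by
  rw [mem_box] at hz ⊢
  intro i
  have h1 := abs_le.mp (hz i)
  have h2 : 0 ≤ pt a i ∧ pt a i ≤ 2 := by
    fin_cases i <;> simp [pt] <;> omega
  rw [abs_le, Pi.sub_apply]
  push_cast
  omega

/-- Hamming distance of two vertices. -/
def ham (x y : ℕ) : ℕ :=
  (code x ^^^ code y) % 2 + (code x ^^^ code y) / 2 % 2 + (code x ^^^ code y) / 4 % 2 +
    (code x ^^^ code y) / 8 % 2 + (code x ^^^ code y) / 16 % 2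

/-- The 5-cube with the three vertices 6, 24 and 31 removed. -/
def GG : SimpleGraph (Fin 29) := SimpleGraph.fromRel fun a b => ham a b = 1

theorem ham_self : ∀ s < 29, ham s s = 0 := by decide +kernel

theorem ham_lip : ∀ s < 29, ∀ a < 29, ∀ b < 29, (ham a b = 1 ∨ ham b a = 1) →
    ham a s ≤ ham b s + 1 := by decide +kernel

theorem ham_step : ∀ s < 29, ∀ a < 29, a ≠ s →
    ∃ b < 29, a ≠ b ∧ ham a b = 1 ∧ ham b s + 1 = ham a s := by decide +kernel

theorem GG_lip (s a b : Fin 29) (h : GG.Adj a b) : ham a s ≤ ham b s + 1 := by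
  rw [GG, SimpleGraph.fromRel_adj] at h
  exact ham_lip s s.2 a a.2 b b.2 h.2

theorem GG_step (s a : Fin 29) (h : a ≠ s) : ∃ b, GG.Adj a b ∧ ham b s + 1 = ham a s := by
  obtain ⟨b, hb, h1, h2, h3⟩ := ham_step s s.2 a a.2 (fun h' => h (Fin.ext h'))
  refine ⟨⟨b, hb⟩, ?_, h3⟩
  rw [GG, SimpleGraph.fromRel_adj]
  exact ⟨fun h' => h1 (congrArg Fin.val h'), Or.inl h2⟩

theorem GG_connected : GG.Connected := by
  refine SimpleGraph.Connected.mk fun a s => ?_
  exact (dist_eq_of_potential GG s (fun a => ham a s) (ham_self s s.2) (GG_lip s)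
    (GG_step s) a).1

/-- The linear functional given by a query vertex. -/
def lam (s : Fin 29) (z : Pt) : ℤ :=
  z 0 * (1 - 2 * vx s 0) + z 1 * (1 - 2 * vx s 1) + z 2 * (1 - 2 * vx s 2) +
    z 3 * (1 - 2 * vx s 3) + z 4 * (1 - 2 * vx s 4)

theorem lam_sub (s : Fin 29) (x y : Pt) : lam s (x - y) = lam s x - lam s y := by
  simp only [lam, Pi.sub_apply]; ring

theorem lam_neg (s : Fin 29) (x : Pt) : lam s (-x) = -lam s x := by
  simp only [lam, Pi.neg_apply]; ring

theorem ham_eq : ∀ s x : Fin 29, (ham x s : ℤ) = lam s (vx x) + ham 0 s := by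
  decide +kernel

theorem lam_sum (L : ℕ) (s : Fin 29) : ∑ z ∈ box L, lam s z = 0 := by
  have h : ∑ z ∈ box L, lam s z = ∑ z ∈ box L, lam s (-z) := by
    refine Finset.sum_equiv (Equiv.neg Pt) (fun z => ?_) (fun z _ => by simp)
    simp [mem_box]
  simp only [lam_neg, Finset.sum_neg_distrib] at h
  omega

theorem lam_bound (L : ℕ) (s : Fin 29) (z : Pt) (hz : z ∈ box L) :
    |lam s z| ≤ ((5 * L : ℕ) : ℤ) := by
  rw [mem_box] at hz
  have hv : ∀ i, |z i * (1 - 2 * vx s i)| ≤ L := by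
    intro i
    have h1 : vx s i = 0 ∨ vx s i = 1 := by
      fin_cases i <;> simp [vx] <;> omega
    have := hz i
    rcases h1 with h1 | h1 <;> rw [h1] <;> simpa using this
  have h0 := abs_le.mp (hv 0)
  have h1 := abs_le.mp (hv 1)
  have h2 := abs_le.mp (hv 2)
  have h3 := abs_le.mp (hv 3)
  have h4 := abs_le.mp (hv 4)
  rw [abs_le, lam]
  push_cast
  constructor <;> linarith [h0.1, h0.2, h1.1, h1.2, h2.1, h2.2, h3.1, h3.2, h4.1, h4.2]

theorem fibre_bound (L n : ℕ) (S : Finset (Fin n → Fin 29))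
    (hS : ∀ x y : Fin n → Fin 29, x ≠ y → ∃ s ∈ S,
      ∑ k, ham (x k) (s k) ≠ ∑ k, ham (y k) (s k))
    (I : Finset (Fin n → Pt)) (hI : I ⊆ Fintype.piFinset (fun _ : Fin n => box L))
    (hΦ : ∀ x ∈ I, ∀ y ∈ I, ∀ s ∈ S, ∑ k, lam (s k) (x k) = ∑ k, lam (s k) (y k)) :
    (I.card : ℝ) ≤ (100233970 * ((box (L + 2)).card : ℝ) / 2922870384) ^ n := by
  have hmem : ∀ x ∈ I, ∀ k, ∀ a < 48, x k - pt a ∈ box (L + 2) :=
    fun x hx k a _ => sub_pt_mem (Fintype.mem_piFinset.mp (hI hx) k) a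
  have hb := tensor_bessel n (box (L + 2) ×ˢ range 90) ww cc uu
    (fun e => Nat.cast_nonneg _) 100233970 2922870384 ((box (L + 2)).card * 2922870384) I
    (fun x hx k => by
      rw [gram_uu _ _ _ (hmem x hx k), sub_self, FD_zero]; norm_num)
    (fun x hx k => gram_cu _ _ (hmem x hx k)) (gram_cc _)
    (fun x hx y hy hxy => by
      by_contra hcon
      have h1 : ∀ k, ∃ p < 29, ∃ r < 29, x k - y k = vx p - vx r := by
        intro k
        refine FD_support fun h0 => hcon ⟨k, ?_⟩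
        rw [gram_uu _ _ _ (hmem x hx k), h0]; simp
      choose p hp r hr hpr using h1
      obtain ⟨s, hs, hne⟩ := hS (fun k => ⟨p k, hp k⟩) (fun k => ⟨r k, hr k⟩) (fun h => by
        apply hxy
        funext k
        have h2 : p k = r k := congrArg Fin.val (congrFun h k)
        have h3 := hpr k
        rw [h2, sub_self] at h3
        exact sub_eq_zero.mp h3)
      apply hne
      have h2 := hΦ x hx y hy s hs
      have h3 : ∑ k, ((ham (p k) (s k) : ℤ) - ham (r k) (s k)) =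
          ∑ k, (lam (s k) (x k) - lam (s k) (y k)) := by
        refine Finset.sum_congr rfl fun k _ => ?_
        rw [← lam_sub, hpr k, lam_sub, ham_eq (s k) ⟨p k, hp k⟩, ham_eq (s k) ⟨r k, hr k⟩]
        ring
      rw [Finset.sum_sub_distrib, Finset.sum_sub_distrib, h2, sub_self, sub_eq_zero] at h3
      exact_mod_cast h3)
  rcases Nat.eq_zero_or_pos I.card with h0 | h0
  · rw [h0, Nat.cast_zero]; positivity
  · have hc : (0 : ℝ) < I.card := by exact_mod_cast h0
    have hβ : (0 : ℝ) < 2922870384 ^ n := by positivity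
    rw [div_pow, le_div_iff₀ hβ, mul_pow]
    rw [mul_pow, mul_pow] at hb
    have h1 : (I.card : ℝ) * 2922870384 ^ n * ((I.card : ℝ) * 2922870384 ^ n) ≤
        (100233970 ^ n * ((box (L + 2)).card : ℝ) ^ n) * ((I.card : ℝ) * 2922870384 ^ n) := by
      nlinarith
    exact le_of_mul_le_mul_right h1 (mul_pos hc hβ)

/-- The growth constant beating the number of vertices. -/
noncomputable def WW : ℝ := 20001 ^ 5 * 2922870384 / (100233970 * 20005 ^ 5)

theorem WW_gt : (29 : ℝ) < WW := by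
  rw [WW, lt_div_iff₀ (by positivity)]
  norm_num

theorem resolving_bound (n : ℕ) (hn : 1 ≤ n) (S : Finset (Fin n → Fin 29))
    (hS : ∀ x y : Fin n → Fin 29, x ≠ y → ∃ s ∈ S,
      ∑ k, ham (x k) (s k) ≠ ∑ k, ham (y k) (s k)) :
    WW ^ n ≤ (3 * Real.exp ((1 + ((5 * 10000 : ℕ) : ℝ) ^ 2) / 2) * √n) ^ S.card := by
  have h := count_bound n hn (box 10000) ⟨0, by simp [mem_box]⟩ lam (5 * 10000)
    (lam_sum 10000) (lam_bound 10000) S _ (fibre_bound 10000 n S hS)
  rw [card_box, card_box] at h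
  have hA : (0 : ℝ) < (100233970 * (((2 * (10000 + 2) + 1) ^ 5 : ℕ) : ℝ) / 2922870384) ^ n := by
    positivity
  have hW : WW ^ n * (100233970 * (((2 * (10000 + 2) + 1) ^ 5 : ℕ) : ℝ) / 2922870384) ^ n =
      ((((2 * 10000 + 1) ^ 5 : ℕ) : ℝ)) ^ n := by
    rw [← mul_pow, WW]
    congr 1
    push_cast
    field_simp
    norm_num
  rw [← hW, mul_comm] at h
  exact le_of_mul_le_mul_left h hA

end Pool.Agent.Lib.MP_571698_co
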